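import Pool.Agent.Q71.AA.WM

set_option autoImplicit false

open MeasureTheory Filter Topology Set

namespace Q71.AA

/-- The left module `ℤG/ℤGf`. -/
abbrev Pm (G : Type) [Group G] (f : MonoidAlgebra ℤ G) : Type :=
  MonoidAlgebra ℤ G ⧸ (Ideal.span {f} : Ideal (MonoidAlgebra ℤ G))

/-- The action of `g` on the Pontryagin dual of `ℤG/ℤGf`: `(gχ)(m) = χ(g⁻¹ m)`. -/
noncomputable def pact {G : Type} [Group G] (f : MonoidAlgebra ℤ G) (g : G)
    (χ : Dual (Pm G f)) : Dual (Pm G f) :=
  (⟨fun m => ev χ (MonoidAlgebra.of ℤ G g⁻¹ • m), by rw [smul_zero, ev_zero],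
    fun a b => by rw [smul_add, ev_add]⟩ : AddChar (Pm G f) Circle)

lemma pact_ev {G : Type} [Group G] (f : MonoidAlgebra ℤ G) (g : G) (χ : Dual (Pm G f))
    (m : Pm G f) : ev (pact f g χ) m = ev χ (MonoidAlgebra.of ℤ G g⁻¹ • m) := rfl

lemma pact_mp {G : Type} [Group G] (f : MonoidAlgebra ℤ G) (g : G) :
    MeasurePreserving (pact f g) (haar (Pm G f)) (haar (Pm G f)) := by
  refine haar_map _ (pact f g⁻¹) (fun m => MonoidAlgebra.of ℤ G g⁻¹ • m) (fun χ a => rfl) ?_
  intro χ
  refine dual_ext fun a => ?_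
  rw [pact_ev, pact_ev, ← mul_smul, ← map_mul, inv_inv, mul_inv_cancel, map_one, one_smul]

/-- the free group of rank two -/
abbrev H := FreeGroup (Fin 2)
/-- `F₂ × ℤ` -/
abbrev GG := H × Multiplicative ℤ
abbrev ZH := MonoidAlgebra ℤ H
abbrev ZG := MonoidAlgebra ℤ GG

/-- the generator of the central factor `ℤ` -/
def ca : GG := (1, Multiplicative.ofAdd 1)

noncomputable def A : ZG := MonoidAlgebra.of ℤ GG ca

/-- `(a - 1)²` -/
noncomputable def ff : ZG := (A - 1) ^ 2

/-- augmentation of the central factor -/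
noncomputable def U : ZG →+ ZH :=
  MonoidAlgebra.liftNC (Int.castAddHom ZH) (fun g : GG => MonoidAlgebra.of ℤ H g.1)
/-- its derivative at `a = 1` -/
noncomputable def V : ZG →+ ZH :=
  MonoidAlgebra.liftNC (Int.castAddHom ZH)
    (fun g : GG => (Multiplicative.toAdd g.2 : ℤ) • MonoidAlgebra.of ℤ H g.1)

lemma U_of (g : GG) : U (MonoidAlgebra.of ℤ GG g) = MonoidAlgebra.of ℤ H g.1 := by
  rw [U, MonoidAlgebra.of_apply, MonoidAlgebra.liftNC_single]; simp

lemma V_of (g : GG) : V (MonoidAlgebra.of ℤ GG g) =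
    (Multiplicative.toAdd g.2 : ℤ) • MonoidAlgebra.of ℤ H g.1 := by
  rw [V, MonoidAlgebra.of_apply, MonoidAlgebra.liftNC_single]; simp

lemma U_of_mul (g : GG) (x : ZG) :
    U (MonoidAlgebra.of ℤ GG g * x) = MonoidAlgebra.of ℤ H g.1 * U x := by
  induction x using MonoidAlgebra.induction_on with
  | of m => rw [← map_mul, U_of, U_of, ← map_mul]; rfl
  | add x y hx hy => rw [mul_add, map_add, hx, hy, map_add, mul_add]
  | smul r x hx => rw [mul_smul_comm, map_zsmul, map_zsmul, hx, mul_smul_comm]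

lemma V_of_mul (g : GG) (x : ZG) :
    V (MonoidAlgebra.of ℤ GG g * x) = MonoidAlgebra.of ℤ H g.1 * V x +
      (Multiplicative.toAdd g.2 : ℤ) • (MonoidAlgebra.of ℤ H g.1 * U x) := by
  induction x using MonoidAlgebra.induction_on with
  | of m =>
    rw [← map_mul, V_of, V_of, U_of, mul_smul_comm, ← map_mul, ← add_smul]
    congr 1
    simp [add_comm]
  | add x y hx hy => rw [mul_add, map_add, hx, hy, map_add, mul_add, map_add, mul_add, smul_add]; abel
  | smul r x hx =>
    rw [mul_smul_comm, map_zsmul, map_zsmul, hx, mul_smul_comm, map_zsmul, mul_smul_comm, smul_add,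
      smul_comm r]

lemma A_comm (x : ZG) : A * x = x * A := by
  induction x using MonoidAlgebra.induction_on with
  | of m =>
    rw [A, ← map_mul, ← map_mul]
    congr 1
    refine Prod.ext ?_ ?_
    · simp [ca]
    · exact mul_comm _ _
  | add x y hx hy => rw [mul_add, add_mul, hx, hy]
  | smul r x hx => rw [mul_smul_comm, smul_mul_assoc, hx]

lemma U_A (x : ZG) : U (x * (A - 1)) = 0 := by
  rw [mul_sub, mul_one, ← A_comm, map_sub, A, U_of_mul]
  have : MonoidAlgebra.of ℤ H (ca.1) = 1 := map_one _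
  rw [this, one_mul, sub_self]

lemma V_A (x : ZG) : V (x * (A - 1)) = U x := by
  rw [mul_sub, mul_one, ← A_comm, map_sub, A, V_of_mul]
  have : MonoidAlgebra.of ℤ H (ca.1) = 1 := map_one _
  have h2 : (Multiplicative.toAdd ca.2 : ℤ) = 1 := rfl
  rw [this, one_mul, one_mul, h2, one_smul, add_sub_cancel_left]

lemma U_ff (x : ZG) : U (x * ff) = 0 := by
  rw [ff, pow_two, ← mul_assoc, U_A]

lemma V_ff (x : ZG) : V (x * ff) = 0 := by
  rw [ff, pow_two, ← mul_assoc, V_A, U_A]

/-- inclusion of the group ring of the free factor -/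
noncomputable def io : ZH →+* ZG :=
  MonoidAlgebra.mapDomainRingHom ℤ (MonoidHom.inl H (Multiplicative ℤ))

lemma io_of (w : H) : io (MonoidAlgebra.of ℤ H w) = MonoidAlgebra.of ℤ GG (w, 1) := by
  simp [io]

lemma U_io (x : ZH) : U (io x) = x := by
  induction x using MonoidAlgebra.induction_on with
  | of m => rw [io_of, U_of]
  | add x y hx hy => rw [map_add, map_add, hx, hy]
  | smul r x hx => rw [map_zsmul, map_zsmul, hx]

lemma V_io (x : ZH) : V (io x) = 0 := by
  induction x using MonoidAlgebra.induction_on with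
  | of m => rw [io_of, V_of]; simp
  | add x y hx hy => rw [map_add, map_add, hx, hy, add_zero]
  | smul r x hx => rw [map_zsmul, map_zsmul, hx, smul_zero]

noncomputable abbrev I : Ideal ZG := Ideal.span {ff}

lemma ff_mem (x : ZG) : x * ff ∈ I := Ideal.mem_span_singleton'.2 ⟨x, rfl⟩

lemma pow_mem (n : ℕ) : A ^ n - 1 - (n : ZG) * (A - 1) ∈ I := by
  induction n with
  | zero => simp
  | succ n ih =>
    have h : A ^ (n + 1) - 1 - ((n + 1 : ℕ) : ZG) * (A - 1) =
        A * (A ^ n - 1 - (n : ZG) * (A - 1)) + (n : ZG) * ff := by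
      have hc : A * (n : ZG) = (n : ZG) * A := A_comm _
      rw [ff, pow_succ', Nat.cast_succ, mul_sub, mul_sub, ← mul_assoc, hc]
      noncomm_ring
    rw [h]
    exact add_mem (I.mul_mem_left _ ih) (ff_mem _)

lemma of_pow (n : ℕ) : MonoidAlgebra.of ℤ GG (1, Multiplicative.ofAdd (n : ℤ)) = A ^ n := by
  rw [A, ← map_pow]
  congr 1
  refine Prod.ext ?_ ?_
  · simp [ca]
  · simp [ca, ← ofAdd_nsmul]

lemma zpow_mem (n : ℤ) : MonoidAlgebra.of ℤ GG (1, Multiplicative.ofAdd n) - 1 -
    (n : ZG) * (A - 1) ∈ I := by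
  rcases Int.eq_nat_or_neg n with ⟨k, rfl | rfl⟩
  · rw [of_pow, Int.cast_natCast]; exact pow_mem k
  · set B := MonoidAlgebra.of ℤ GG (1, Multiplicative.ofAdd (-(k : ℤ))) with hB
    have hBA : B * A ^ k = 1 := by
      rw [hB, ← of_pow, ← map_mul, ← map_one (MonoidAlgebra.of ℤ GG)]
      congr 1
      refine Prod.ext (by simp) ?_
      simp [← ofAdd_add]
    have h : B - 1 - ((-(k : ℤ) : ℤ) : ZG) * (A - 1) =
        - (B * (A ^ k - 1 - (k : ZG) * (A - 1))) - (B - 1) * (k : ZG) * (A - 1) := by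
      have h5 : B * (A ^ k - 1 - (k : ZG) * (A - 1)) = 1 - B - B * (k : ZG) * (A - 1) := by
        rw [mul_sub, mul_sub, hBA, mul_one, mul_assoc]
      rw [h5]
      push_cast
      noncomm_ring
    have h2 : (B - 1) * (k : ZG) * (A - 1) ∈ I := by
      -- `B - 1 = - B (A^k - 1)` and `A^k - 1` is a multiple of `A - 1`
      have h3 : B - 1 = - (B * (A ^ k - 1)) := by rw [mul_sub, hBA, mul_one]; abel
      obtain ⟨q, hq⟩ : ∃ q : ZG, A ^ k - 1 = q * (A - 1) := by
        refine ⟨∑ i ∈ Finset.range k, A ^ i, ?_⟩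
        exact (geom_sum_mul A k).symm
      have hk : (A - 1) * (k : ZG) = (k : ZG) * (A - 1) := (Nat.cast_commute k (A - 1)).eq.symm
      have h4 : (B - 1) * (k : ZG) * (A - 1) = (-(B * q * (k : ZG))) * ff := by
        rw [h3, hq, ff, pow_two]
        calc -(B * (q * (A - 1))) * (k : ZG) * (A - 1)
            = -(B * (q * ((A - 1) * (k : ZG)))) * (A - 1) := by noncomm_ring
          _ = _ := by rw [hk]; noncomm_ring
      rw [h4]; exact ff_mem _
    rw [h]
    exact sub_mem (neg_mem (I.mul_mem_left _ (pow_mem k))) h2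

lemma decomp (x : ZG) : x - (io (U x) + io (V x) * (A - 1)) ∈ I := by
  induction x using MonoidAlgebra.induction_on with
  | of g =>
    rw [U_of, V_of, map_zsmul, io_of]
    have h1 : MonoidAlgebra.of ℤ GG g = MonoidAlgebra.of ℤ GG (g.1, 1) *
        MonoidAlgebra.of ℤ GG (1, Multiplicative.ofAdd (Multiplicative.toAdd g.2)) := by
      rw [← map_mul]
      congr 1
      refine Prod.ext (by simp) (by simp)
    have h2 : MonoidAlgebra.of ℤ GG g - (MonoidAlgebra.of ℤ GG (g.1, 1) +
        ((Multiplicative.toAdd g.2 : ℤ) • MonoidAlgebra.of ℤ GG (g.1, 1)) * (A - 1)) =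
        MonoidAlgebra.of ℤ GG (g.1, 1) *
        (MonoidAlgebra.of ℤ GG (1, Multiplicative.ofAdd (Multiplicative.toAdd g.2)) - 1 -
          ((Multiplicative.toAdd g.2 : ℤ) : ZG) * (A - 1)) := by
      rw [h1, mul_sub (MonoidAlgebra.of ℤ GG (g.1, 1)), mul_sub (MonoidAlgebra.of ℤ GG (g.1, 1)),
        mul_one, sub_sub, zsmul_eq_mul, Int.cast_comm, mul_assoc]
    rw [h2]
    exact I.mul_mem_left _ (zpow_mem _)
  | add x y hx hy =>
    have : x + y - (io (U (x + y)) + io (V (x + y)) * (A - 1)) =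
        (x - (io (U x) + io (V x) * (A - 1))) + (y - (io (U y) + io (V y) * (A - 1))) := by
      simp only [map_add, add_mul]; abel
    rw [this]; exact add_mem hx hy
  | smul r x hx =>
    have : r • x - (io (U (r • x)) + io (V (r • x)) * (A - 1)) =
        r • (x - (io (U x) + io (V x) * (A - 1))) := by
      rw [map_zsmul, map_zsmul, map_zsmul, map_zsmul, smul_mul_assoc, smul_sub, smul_add]
    rw [this]; exact zsmul_mem hx r

lemma mem_iff (x : ZG) : x ∈ I ↔ U x = 0 ∧ V x = 0 := by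
  constructor
  · intro h
    obtain ⟨y, rfl⟩ := Ideal.mem_span_singleton'.1 h
    exact ⟨U_ff y, V_ff y⟩
  · rintro ⟨h1, h2⟩
    have := decomp x
    rwa [h1, h2, map_zero, zero_mul, add_zero, sub_zero] at this

abbrev M := Pm GG ff

noncomputable def mk : ZG →ₗ[ZG] M := Submodule.mkQ I

lemma mk_eq_iff (x y : ZG) : mk x = mk y ↔ U x = U y ∧ V x = V y := by
  rw [← sub_eq_zero, ← map_sub]
  have : mk (x - y) = 0 ↔ x - y ∈ I := Submodule.Quotient.mk_eq_zero _
  rw [this, mem_iff, map_sub, map_sub, sub_eq_zero, sub_eq_zero]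

lemma mk_surj (m : M) : ∃ x, mk x = m := Submodule.mkQ_surjective _ m

/-- the generator `s` of the free group acts on `ℤH` without finite orbits -/
lemma of_pow_mul_ne {y : ZH} (hy : y ≠ 0) (i : Fin 2) {k : ℕ} (hk : k ≠ 0) :
    MonoidAlgebra.of ℤ H ((FreeGroup.of i) ^ k)⁻¹ * y ≠ y := by
  intro h
  set s : H := (FreeGroup.of i) ^ k with hs
  have h1 : ∀ w, y.coeff (s * w) = y.coeff w := by
    intro w
    have := congrArg (fun z : ZH => z.coeff w) h
    simp only [MonoidAlgebra.of_apply, MonoidAlgebra.coeff_single_mul_apply, one_mul, inv_inv] at this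
    exact this
  have h2 : ∀ (n : ℕ) w, y.coeff (s ^ n * w) = y.coeff w := by
    intro n
    induction n with
    | zero => simp
    | succ n ih => intro w; rw [pow_succ', mul_assoc, h1, ih]
  obtain ⟨w, hw⟩ : ∃ w, y.coeff w ≠ 0 := by
    by_contra hcon
    push Not at hcon
    apply hy
    ext w
    exact hcon w
  have hinj : Function.Injective fun n : ℕ => s ^ n * w := by
    intro m n hmn
    have hmn' : s ^ m = s ^ n := mul_right_cancel (show s ^ m * w = s ^ n * w from hmn)
    rw [hs, ← pow_mul, ← pow_mul] at hmn'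
    have h3 : ∀ j : ℕ, ((FreeGroup.of i) ^ j : H).toWord.length = j := by
      intro j
      rw [FreeGroup.toWord_of_pow]; simp
    have h4 := congrArg (fun z : H => z.toWord.length) hmn'
    simp only [h3] at h4
    exact Nat.eq_of_mul_eq_mul_left (Nat.pos_of_ne_zero hk) h4
  exact Set.infinite_of_injective_forall_mem (s := (y.coeff.support : Set H)) hinj
    (fun n => by simpa [h2 n w] using hw) (Finset.finite_toSet _)

end Q71.AA
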