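import Pool.Agent.Q71.AA.Alg

set_option autoImplicit false

open MeasureTheory Filter Topology Set

namespace Q71.AA

/-- A group is amenable if it has a left invariant finitely additive probability measure. -/
def Amenable (G : Type) [Group G] : Prop :=
  ∃ m : Set G → ℝ, (∀ s, 0 ≤ m s) ∧ m univ = 1 ∧
    (∀ s t, Disjoint s t → m (s ∪ t) = m s + m t) ∧ ∀ g s, m ((fun x => g * x) '' s) = m s

/-- A group is inner amenable if it has a conjugation invariant finitely additive probability
measure without atoms. -/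
def InnerAmenable (G : Type) [Group G] : Prop :=
  ∃ m : Set G → ℝ, (∀ s, 0 ≤ m s) ∧ m univ = 1 ∧
    (∀ s t, Disjoint s t → m (s ∪ t) = m s + m t) ∧ (∀ g, m {g} = 0) ∧
    ∀ g s, m ((fun x => g * x * g⁻¹) '' s) = m s

theorem not_amenable : ¬ Amenable GG := by
  rintro ⟨m, h0, h1, hadd, hinv⟩
  have hmono : ∀ s t, s ⊆ t → m s ≤ m t := by
    intro s t hst
    have := hadd s (t \ s) disjoint_sdiff_right
    rw [union_sdiff_cancel hst] at this
    rw [this]; linarith [h0 (t \ s)]
  have hsub : ∀ s t, m (s ∪ t) ≤ m s + m t := by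
    intro s t
    have := hadd s (t \ s) disjoint_sdiff_right
    rw [union_sdiff_self] at this
    rw [this]; linarith [hmono (t \ s) t sdiff_subset]
  let S : Fin 2 × Bool → Set GG := fun w => {g | g.1 ∈ FreeGroup.startsWith w}
  have key : ∀ i : Fin 2, 1 ≤ m (S (i, true)) + m (S (i, false)) := by
    intro i
    have hcov : (univ : Set GG) ⊆ S (i, false) ∪
        (fun x => ((FreeGroup.mk [(i, true)])⁻¹, (1 : Multiplicative ℤ)) * x) '' S (i, true) := by
      intro g _
      by_cases hg : g.1 ∈ FreeGroup.startsWith (i, false)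
      · left; exact hg
      · right
        refine ⟨(FreeGroup.mk [(i, true)], 1) * g, ?_, ?_⟩
        · exact FreeGroup.startsWith_mk_mul (w := (i, true)) g.1 hg
        · show (((FreeGroup.mk [(i, true)])⁻¹, (1 : Multiplicative ℤ)) : GG) *
            ((FreeGroup.mk [(i, true)], 1) * g) = g
          rw [← mul_assoc]
          have : (((FreeGroup.mk [(i, true)])⁻¹, (1 : Multiplicative ℤ)) : GG) *
            (FreeGroup.mk [(i, true)], 1) = 1 := Prod.ext (inv_mul_cancel _) (by simp)
          rw [this, one_mul]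
    calc (1 : ℝ) = m univ := h1.symm
      _ ≤ _ := hmono _ _ hcov
      _ ≤ _ := hsub _ _
      _ = m (S (i, true)) + m (S (i, false)) := by rw [hinv, add_comm]
  have hdis : ∀ w w', w ≠ w' → Disjoint (S w) (S w') := by
    intro w w' h
    rw [Set.disjoint_left]
    intro g hg hg'
    exact Set.disjoint_left.1 (FreeGroup.startsWith.disjoint_iff_ne.2 h) hg hg'
  have h2 : m (S (0, true)) + m (S (0, false)) + (m (S (1, true)) + m (S (1, false))) ≤ 1 := by
    rw [← hadd _ _ (hdis _ _ (by decide)), ← hadd _ _ (hdis _ _ (by decide)),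
      ← hadd, ← h1]
    · exact hmono _ _ (subset_univ _)
    · rw [disjoint_union_left, disjoint_union_right, disjoint_union_right]
      exact ⟨⟨hdis _ _ (by decide), hdis _ _ (by decide)⟩, hdis _ _ (by decide),
        hdis _ _ (by decide)⟩
  linarith [key 0, key 1]

theorem innerAmenable : InnerAmenable GG := by
  classical
  let U : Ultrafilter ℕ := hyperfilter ℕ
  let c : ℕ → GG := fun n => (1, Multiplicative.ofAdd (n : ℤ))
  have hc : Function.Injective c := by
    intro a b h
    have := congrArg (fun g : GG => Multiplicative.toAdd g.2) h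
    simpa [c] using this
  refine ⟨fun s => if {n | c n ∈ s} ∈ U then 1 else 0, fun s => ?_, ?_, ?_, ?_, ?_⟩
  · show (0 : ℝ) ≤ if {n | c n ∈ s} ∈ U then 1 else 0
    split_ifs <;> norm_num
  · show (if {n | c n ∈ (univ : Set GG)} ∈ U then (1 : ℝ) else 0) = 1
    rw [if_pos]
    have : {n | c n ∈ (univ : Set GG)} = univ := by ext; simp
    rw [this]; exact Filter.univ_mem
  · intro s t hst
    simp only
    have h1 : {n | c n ∈ s ∪ t} = {n | c n ∈ s} ∪ {n | c n ∈ t} := by ext; simp
    rw [h1, Ultrafilter.union_mem_iff]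
    by_cases hs : {n | c n ∈ s} ∈ U
    · have ht : {n | c n ∈ t} ∉ U := by
        intro ht
        have h3 := U.toFilter.inter_mem hs ht
        have h2 : {n | c n ∈ s} ∩ {n | c n ∈ t} = ∅ := by
          ext n
          simp only [mem_inter_iff, mem_ofPred_eq, mem_empty_iff_false, iff_false, not_and]
          exact fun h1 h2 => Set.disjoint_left.1 hst h1 h2
        rw [h2] at h3
        exact U.empty_notMem h3
      simp [hs, ht]
    · simp [hs]
  · intro g
    show (if {n | c n ∈ ({g} : Set GG)} ∈ U then (1 : ℝ) else 0) = 0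
    rw [if_neg]
    intro h
    have hf : {n | c n ∈ ({g} : Set GG)}.Finite := by
      apply Set.Subsingleton.finite
      intro a ha b hb
      exact hc ((show c a = g from ha).trans (show c b = g from hb).symm)
    have := hf.compl_mem_hyperfilter
    exact U.compl_notMem_iff.2 h this
  · intro g s
    have : {n | c n ∈ (fun x => g * x * g⁻¹) '' s} = {n | c n ∈ s} := by
      ext n
      have hcomm : g * c n = c n * g := Prod.ext (by simp [c]) (mul_comm _ _)
      constructor
      · rintro ⟨x, hx, hxc⟩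
        have h1 : g * x * g⁻¹ = c n := hxc
        have h2 : x = c n := by
          have : g * x = c n * g := by rw [← h1]; group
          rw [← hcomm] at this
          exact mul_left_cancel this
        show c n ∈ s
        rw [← h2]; exact hx
      · intro h
        exact ⟨c n, h, by show g * c n * g⁻¹ = c n; rw [hcomm]; group⟩
    simp only [this]

/-! ### Fox derivative -/

/-- affine permutations of `ℤH` -/
noncomputable def aff (i : Fin 2) : Equiv.Perm ZH where
  toFun x := MonoidAlgebra.of ℤ H (FreeGroup.of i) * x + (if i = 0 then 1 else 0)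
  invFun x := MonoidAlgebra.of ℤ H (FreeGroup.of i)⁻¹ * (x - (if i = 0 then 1 else 0))
  left_inv x := by
    simp only
    rw [add_sub_cancel_right, ← mul_assoc, ← map_mul, inv_mul_cancel, map_one, one_mul]
  right_inv x := by
    simp only
    rw [← mul_assoc, ← map_mul, mul_inv_cancel, map_one, one_mul, sub_add_cancel]

noncomputable def rho : H →* Equiv.Perm ZH := FreeGroup.lift aff

/-- the Fox derivative in the first variable -/
noncomputable def D (w : H) : ZH := rho w 0

lemma rho_eq (w : H) : ∀ x, rho w x = MonoidAlgebra.of ℤ H w * x + D w := by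
  induction w using FreeGroup.induction_on with
  | C1 =>
    intro x
    rw [D, map_one, map_one, one_mul]
    simp
  | of i =>
    intro x
    simp only [D, rho, FreeGroup.lift_apply_of]
    show MonoidAlgebra.of ℤ H (FreeGroup.of i) * x + (if i = 0 then 1 else 0) =
      _ + (MonoidAlgebra.of ℤ H (FreeGroup.of i) * 0 + (if i = 0 then 1 else 0))
    rw [mul_zero, zero_add]
  | inv_of i _ =>
    intro x
    simp only [D, rho, map_inv, FreeGroup.lift_apply_of]
    show MonoidAlgebra.of ℤ H (FreeGroup.of i)⁻¹ * (x - (if i = 0 then 1 else 0)) =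
      _ + (MonoidAlgebra.of ℤ H (FreeGroup.of i)⁻¹ * (0 - (if i = 0 then 1 else 0)))
    rw [mul_sub, mul_sub, mul_zero, zero_sub, sub_eq_add_neg]
  | mul u v hu hv =>
    intro x
    rw [map_mul, Equiv.Perm.mul_apply, hv, hu]
    have : D (u * v) = MonoidAlgebra.of ℤ H u * D v + D u := by
      rw [D, map_mul, Equiv.Perm.mul_apply, hu]; rfl
    rw [this, map_mul, mul_add, mul_assoc, add_assoc]

lemma D_mul (u v : H) : D (u * v) = D u + MonoidAlgebra.of ℤ H u * D v := by
  rw [D, map_mul, Equiv.Perm.mul_apply, rho_eq, add_comm]; rfl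

lemma D_zero : D (FreeGroup.of 0) = 1 := by
  simp only [D, rho, FreeGroup.lift_apply_of]
  show MonoidAlgebra.of ℤ H (FreeGroup.of 0) * 0 + (if (0 : Fin 2) = 0 then 1 else 0) = 1
  simp

lemma D_one : D (FreeGroup.of 1) = 0 := by
  simp only [D, rho, FreeGroup.lift_apply_of]
  show MonoidAlgebra.of ℤ H (FreeGroup.of 1) * 0 + (if (1 : Fin 2) = 0 then 1 else 0) = 0
  simp

/-- `H¹(G, M) ≠ 0`: there is a crossed homomorphism which is not principal. -/
def H1NeZero (G : Type) [Group G] (M : Type) [AddCommGroup M] [Module (MonoidAlgebra ℤ G) M] :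
    Prop :=
  ∃ c : G → M, (∀ g h, c (g * h) = c g + MonoidAlgebra.of ℤ G g • c h) ∧
    ¬ ∃ m : M, ∀ g, c g = MonoidAlgebra.of ℤ G g • m - m

theorem h1 : H1NeZero GG M := by
  refine ⟨fun g => mk (io (D g.1) * (A - 1)), ?_, ?_⟩
  · intro g h
    simp only
    rw [← map_smul, ← map_add, mk_eq_iff, smul_eq_mul]
    constructor
    · rw [U_A, map_add, U_A, U_of_mul, U_A, mul_zero, zero_add]
    · rw [V_A, map_add, V_A, V_of_mul, V_A, U_A, U_io, U_io, U_io, mul_zero, smul_zero, add_zero]
      exact D_mul _ _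
  · rintro ⟨m, hm⟩
    obtain ⟨x, rfl⟩ := mk_surj m
    have hm' : ∀ g : GG, 0 = MonoidAlgebra.of ℤ H g.1 * U x - U x ∧
        D g.1 = MonoidAlgebra.of ℤ H g.1 * V x +
          (Multiplicative.toAdd g.2 : ℤ) • (MonoidAlgebra.of ℤ H g.1 * U x) - V x := by
      intro g
      have h := hm g
      rw [← map_smul, ← map_sub, mk_eq_iff, smul_eq_mul, U_A, V_A, U_io, map_sub, map_sub, U_of_mul,
        V_of_mul] at h
      exact h
    have hU : U x = 0 := by
      have h := (hm' ca).2
      have hD : D (1 : H) = 0 := by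
        have := D_mul 1 1
        rw [mul_one, map_one, one_mul] at this
        exact left_eq_add.1 this
      have h1 : ca.1 = 1 := rfl
      have h2 : (Multiplicative.toAdd ca.2 : ℤ) = 1 := rfl
      rw [h1, h2, hD, map_one, one_mul, one_mul, one_smul, add_sub_cancel_left] at h
      exact h.symm
    have hw : ∀ w : H, D w = MonoidAlgebra.of ℤ H w * V x - V x := by
      intro w
      have h := (hm' (w, 1)).2
      rw [hU, mul_zero, smul_zero, add_zero] at h
      exact h
    have hV : V x = 0 := by
      by_contra hne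
      have h := hw (FreeGroup.of 1)
      rw [D_one] at h
      have h2 : MonoidAlgebra.of ℤ H (FreeGroup.of 1) * V x = V x := (sub_eq_zero.1 h.symm)
      apply of_pow_mul_ne hne 1 one_ne_zero
      rw [pow_one]
      conv_lhs => rw [← h2]
      rw [← mul_assoc, ← map_mul, inv_mul_cancel, map_one, one_mul]
    have h := hw (FreeGroup.of 0)
    rw [D_zero, hV, mul_zero, sub_zero] at h
    exact one_ne_zero h

theorem orbits_infinite (m : M) (hm : m ≠ 0) :
    (range fun g : GG => MonoidAlgebra.of ℤ GG g⁻¹ • m).Infinite := by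
  obtain ⟨x, rfl⟩ := mk_surj m
  have hx : U x ≠ 0 ∨ V x ≠ 0 := by
    by_contra h
    push Not at h
    apply hm
    have : mk x = mk 0 := by rw [mk_eq_iff]; simp [h.1, h.2]
    rw [this, map_zero]
  have hinj : Function.Injective fun n : ℕ =>
      MonoidAlgebra.of ℤ GG (((FreeGroup.of 0 : H) ^ n, (1 : Multiplicative ℤ)) : GG)⁻¹ • mk x := by
    intro i j hij
    simp only at hij
    wlog hlt : i < j generalizing i j with H
    · rcases lt_trichotomy i j with h | h | h
      · exact H hij h
      · exact h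
      · exact (H hij.symm h).symm
    exfalso
    rw [← map_smul, ← map_smul, mk_eq_iff, smul_eq_mul, smul_eq_mul, U_of_mul, U_of_mul, V_of_mul,
      V_of_mul] at hij
    have e1 : ∀ n : ℕ, ((((FreeGroup.of 0 : H) ^ n, (1 : Multiplicative ℤ)) : GG)⁻¹).1 =
      ((FreeGroup.of 0 : H) ^ n)⁻¹ := fun n => rfl
    have e2 : ∀ n : ℕ, (Multiplicative.toAdd
      ((((FreeGroup.of 0 : H) ^ n, (1 : Multiplicative ℤ)) : GG)⁻¹).2 : ℤ) = 0 := fun n => rfl
    simp only [e1, e2, zero_smul, add_zero] at hij
    have key : ∀ y : ZH, MonoidAlgebra.of ℤ H ((FreeGroup.of 0 : H) ^ i)⁻¹ * y =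
        MonoidAlgebra.of ℤ H ((FreeGroup.of 0 : H) ^ j)⁻¹ * y → y = 0 := by
      intro y hy
      by_contra hne
      apply of_pow_mul_ne hne 0 (k := j - i) (by omega)
      have h3 := congrArg (fun z => MonoidAlgebra.of ℤ H ((FreeGroup.of 0 : H) ^ i) * z) hy
      simp only [← mul_assoc, ← map_mul] at h3
      rw [mul_inv_cancel, map_one, one_mul] at h3
      have h4 : (FreeGroup.of 0 : H) ^ i * ((FreeGroup.of 0 : H) ^ j)⁻¹ =
          ((FreeGroup.of 0 : H) ^ (j - i))⁻¹ := by
        have : j = (j - i) + i := by omega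
        conv_lhs => rw [this, pow_add, mul_inv_rev, ← mul_assoc, mul_inv_cancel, one_mul]
      rw [h4] at h3
      exact h3.symm
    rcases hx with h | h
    · exact h (key _ hij.1)
    · exact h (key _ hij.2)
  exact (Set.infinite_range_of_injective hinj).mono (by
    rintro _ ⟨n, rfl⟩
    exact ⟨_, rfl⟩)

instance : Countable ZG := by
  have : Countable (GG →₀ ℤ) := inferInstance
  exact (MonoidAlgebra.coeffEquiv (R := ℤ) (M := GG)).injective.countable

instance : Countable M := (Submodule.mkQ_surjective I).countable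

theorem weak_mixing : WeaklyMixing (haar M) (pact ff) :=
  weaklyMixing_of_orbits (fun g m => MonoidAlgebra.of ℤ GG g⁻¹ • m) (pact ff)
    (fun _ _ _ => rfl) (pact_mp ff) orbits_infinite

theorem ess_free (g : GG) (hg : g ≠ 1) : haar M {χ | pact ff g χ = χ} = 0 := by
  set m : M := mk (MonoidAlgebra.of ℤ GG g⁻¹ - 1) with hm
  have hsub : {χ : Dual M | pact ff g χ = χ} ⊆ {χ | ev χ m = 1} := by
    intro χ hχ
    have h1 : ev (pact ff g χ) (mk 1) = ev χ (mk 1) := by rw [show pact ff g χ = χ from hχ]
    rw [pact_ev, ← map_smul, smul_eq_mul, mul_one] at h1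
    show ev χ m = 1
    rw [hm, map_sub, sub_eq_add_neg, ev_add, ev_neg, h1, mul_inv_cancel]
  refine measure_mono_null hsub (null_of_inf_order ?_)
  intro n hn h
  have h2 : mk (n • (MonoidAlgebra.of ℤ GG g⁻¹ - 1)) = mk 0 := by
    rw [map_nsmul, ← hm, h, map_zero]
  rw [mk_eq_iff, map_nsmul, map_nsmul, map_zero, map_zero, map_sub, map_sub, U_of, V_of] at h2
  have hU1 : U 1 = 1 := by rw [← map_one io, U_io]
  have hV1 : V 1 = 0 := by rw [← map_one io, V_io]
  rw [hU1, hV1, sub_zero] at h2
  have hnt : ∀ y : ZH, n • y = 0 → y = 0 := by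
    intro y hy
    ext w
    have h3 := congrArg (fun z : ZH => z.coeff w) hy
    simp only [MonoidAlgebra.coeff_zero, Finsupp.coe_zero, Pi.zero_apply] at h3
    rw [MonoidAlgebra.coeff_smul, Finsupp.smul_apply, smul_eq_zero] at h3
    rcases h3 with h3 | h3
    · exact absurd h3 hn
    · simpa using h3
  have h3 := hnt _ h2.1
  have h4 := hnt _ h2.2
  have h5 : g⁻¹.1 = 1 := by
    have h6 : MonoidAlgebra.of ℤ H g⁻¹.1 = MonoidAlgebra.of ℤ H 1 := by
      rw [map_one]; exact sub_eq_zero.1 h3
    exact MonoidAlgebra.of_injective h6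
  apply hg
  rw [h5, map_one] at h4
  have h7 : (Multiplicative.toAdd g⁻¹.2 : ℤ) = 0 := by
    have h8 := congrArg (fun z : ZH => z.coeff 1) h4
    simpa [MonoidAlgebra.one_def] using h8
  refine Prod.ext ?_ ?_
  · have : (g.1)⁻¹ = 1 := h5
    exact inv_eq_one.1 this
  · have h9 : Multiplicative.toAdd g.2 = 0 := by simpa using h7
    exact h9

end Q71.AA
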