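import Mathlib

set_option autoImplicit false

open MeasureTheory Filter Topology Set
open scoped ComplexConjugate InnerProductSpace ENNReal

namespace Q71.AA

/-- The Pontryagin dual of the discrete abelian group `A`: the homomorphisms from `A` to the unit
circle, with pointwise multiplication. -/
def Dual (A : Type) [AddCommGroup A] : Type := AddChar A Circle

section basic
variable {A : Type} [AddCommGroup A]

noncomputable instance : CommGroup (Dual A) := inferInstanceAs (CommGroup (AddChar A Circle))

/-- the value `χ(a)` of a character -/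
noncomputable def ev (χ : Dual A) (a : A) : Circle := (show AddChar A Circle from χ) a

/-- the topology of pointwise convergence (the compact-open topology, as `A` is discrete) -/
noncomputable instance : TopologicalSpace (Dual A) :=
  TopologicalSpace.induced (fun χ a => ev χ a) inferInstance
noncomputable instance : MeasurableSpace (Dual A) := borel _
instance : BorelSpace (Dual A) := ⟨rfl⟩

lemma dual_ext {χ ψ : Dual A} (h : ∀ a, ev χ a = ev ψ a) : χ = ψ :=
  DFunLike.ext (show AddChar A Circle from χ) (show AddChar A Circle from ψ) h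

lemma ev_add (χ : Dual A) (a b : A) : ev χ (a + b) = ev χ a * ev χ b :=
  AddChar.map_add_eq_mul (show AddChar A Circle from χ) a b

lemma ev_zero (χ : Dual A) : ev χ 0 = 1 :=
  AddChar.map_zero_eq_one (show AddChar A Circle from χ)

lemma ev_neg (χ : Dual A) (a : A) : ev χ (-a) = (ev χ a)⁻¹ :=
  AddChar.map_neg_eq_inv (show AddChar A Circle from χ) a

lemma mul_ev (χ ψ : Dual A) (a : A) : ev (χ * ψ) a = ev χ a * ev ψ a := rfl
lemma one_ev (a : A) : ev (1 : Dual A) a = 1 := rfl
lemma inv_ev (χ : Dual A) (a : A) : ev χ⁻¹ a = (ev χ a)⁻¹ := by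
  have h : ev (χ⁻¹ * χ) a = 1 := by rw [inv_mul_cancel, one_ev]
  rw [mul_ev] at h
  exact eq_inv_of_mul_eq_one_left h

lemma inducing_ev : IsInducing (fun (χ : Dual A) (a : A) => ev χ a) := ⟨rfl⟩

lemma injective_ev : Function.Injective (fun (χ : Dual A) (a : A) => ev χ a) :=
  fun _ _ h => dual_ext fun a => congrFun h a

lemma cont_ev (a : A) : Continuous (fun χ : Dual A => ev χ a) :=
  (continuous_apply a).comp inducing_ev.continuous

lemma cont_iff {X : Type*} [TopologicalSpace X] {F : X → Dual A} :
    Continuous F ↔ ∀ a, Continuous fun x => ev (F x) a := by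
  rw [inducing_ev.continuous_iff, continuous_pi_iff]
  exact Iff.rfl

instance : IsTopologicalGroup (Dual A) where
  continuous_mul := cont_iff.2 fun a =>
    ((cont_ev a).comp continuous_fst).mul ((cont_ev a).comp continuous_snd)
  continuous_inv := cont_iff.2 fun a => by
    have : (fun x : Dual A => ev x⁻¹ a) = fun x => (ev x a)⁻¹ := by ext x; rw [inv_ev]
    rw [this]; exact (cont_ev a).inv

instance : T2Space (Dual A) :=
  T2Space.of_injective_continuous injective_ev inducing_ev.continuous

lemma range_ev : range (fun (χ : Dual A) (a : A) => ev χ a) =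
    {f : A → Circle | f 0 = 1 ∧ ∀ a b, f (a + b) = f a * f b} := by
  ext f
  constructor
  · rintro ⟨χ, rfl⟩
    exact ⟨ev_zero χ, ev_add χ⟩
  · rintro ⟨h0, h1⟩
    exact ⟨(⟨f, h0, h1⟩ : AddChar A Circle), rfl⟩

instance : CompactSpace (Dual A) := by
  have hc : IsClosed (range (fun (χ : Dual A) (a : A) => ev χ a)) := by
    rw [range_ev]
    have h1 : {f : A → Circle | f 0 = 1 ∧ ∀ a b, f (a + b) = f a * f b} =
        {f : A → Circle | f 0 = 1} ∩ ⋂ a, ⋂ b, {f : A → Circle | f (a + b) = f a * f b} := by
      ext f; simp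
    rw [h1]
    refine (isClosed_eq (continuous_apply 0) continuous_const).inter ?_
    exact isClosed_iInter fun a => isClosed_iInter fun b =>
      isClosed_eq (continuous_apply _) (Continuous.mul (f := fun f : A → Circle => f a)
        (g := fun f : A → Circle => f b) (continuous_apply _) (continuous_apply _))
  exact (Topology.IsClosedEmbedding.mk ⟨inducing_ev, injective_ev⟩ hc).compactSpace

instance [Countable A] : SecondCountableTopology (Dual A) :=
  inducing_ev.secondCountableTopology

/-- normalised Haar measure on the dual -/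
noncomputable def haar (A : Type) [AddCommGroup A] : Measure (Dual A) :=
  Measure.haarMeasure (⊤ : TopologicalSpace.PositiveCompacts (Dual A))

instance : IsProbabilityMeasure (haar A) := by
  constructor
  have h1 := Measure.haarMeasure_self (K₀ := (⊤ : TopologicalSpace.PositiveCompacts (Dual A)))
  rw [TopologicalSpace.PositiveCompacts.coe_top] at h1
  exact h1

instance : (haar A).IsHaarMeasure := Measure.isHaarMeasure_haarMeasure _

/-- the dual of an automorphism of `A` preserves the Haar measure -/
lemma haar_map (T : Dual A → Dual A) (S : Dual A → Dual A) (φ : A → A)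
    (hT : ∀ χ a, ev (T χ) a = ev χ (φ a)) (hS : ∀ χ, T (S χ) = χ) :
    MeasurePreserving T (haar A) (haar A) := by
  let g : Dual A →* Dual A :=
    { toFun := T
      map_one' := dual_ext fun a => by rw [hT, one_ev, one_ev]
      map_mul' := fun x y => dual_ext fun a => by rw [hT, mul_ev, mul_ev, hT, hT] }
  have hc : Continuous T := cont_iff.2 fun a => by
    simp only [hT]; exact cont_ev _
  exact MonoidHom.measurePreserving (f := g) hc (fun x => ⟨S x, hS x⟩) rfl

/-- rationals to the circle -/
noncomputable def qexp : AddCircle (1 : ℚ) →+ Additive Circle :=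
  QuotientAddGroup.lift _
    (AddMonoidHom.mk' (fun q : ℚ => Additive.ofMul (Circle.exp (2 * Real.pi * (q : ℝ)))) (by
      intro a b
      rw [← ofMul_mul, ← Circle.exp_add]
      congr 2
      push_cast; ring)) (by
    intro q hq
    obtain ⟨n, rfl⟩ := AddSubgroup.mem_zmultiples_iff.1 hq
    show Additive.ofMul (Circle.exp (2 * Real.pi * ((n • (1 : ℚ) : ℚ) : ℝ))) = 0
    rw [zsmul_eq_mul, mul_one]
    have : (2 * Real.pi * (((n : ℚ) : ℝ))) = n * (2 * Real.pi) := by push_cast; ring
    rw [this, Circle.exp_int_mul_two_pi]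
    rfl)

lemma qexp_eq_zero {x : AddCircle (1 : ℚ)} (h : qexp x = 0) : x = 0 := by
  obtain ⟨q, rfl⟩ := QuotientAddGroup.mk_surjective x
  have h1 : Circle.exp (2 * Real.pi * (q : ℝ)) = 1 := h
  rw [Circle.exp_eq_one] at h1
  obtain ⟨n, hn⟩ := h1
  have h2 : (q : ℝ) = n := by
    have hp := Real.two_pi_pos.ne'
    have : (2 * Real.pi) * (q : ℝ) = (2 * Real.pi) * n := by rw [hn]; ring
    exact mul_left_cancel₀ hp this
  have h3 : q = n := by exact_mod_cast h2
  rw [h3]
  refine (QuotientAddGroup.eq_zero_iff _).2 (AddSubgroup.mem_zmultiples_iff.2 ⟨n, by simp⟩)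

lemma exists_ev_ne {a : A} (ha : a ≠ 0) : ∃ χ : Dual A, ev χ a ≠ 1 := by
  obtain ⟨c, hc⟩ := CharacterModule.exists_character_apply_ne_zero_of_ne_zero ha
  let d : A →+ Additive Circle := qexp.comp (show A →+ AddCircle (1 : ℚ) from c)
  refine ⟨(⟨fun a => (d a).toMul, by simp, fun a b => by simp⟩ : AddChar A Circle), ?_⟩
  intro h
  apply hc
  apply qexp_eq_zero
  exact h

/-- nontrivial characters of the dual have integral zero -/
lemma integral_ev {a : A} (ha : a ≠ 0) : ∫ χ : Dual A, ((ev χ a : Circle) : ℂ) ∂(haar A) = 0 := by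
  obtain ⟨ψ, hψ⟩ := exists_ev_ne ha
  have h1 : ∫ χ : Dual A, ((ev (ψ * χ) a : Circle) : ℂ) ∂(haar A) =
      ∫ χ : Dual A, ((ev χ a : Circle) : ℂ) ∂(haar A) :=
    integral_mul_left_eq_self (fun χ : Dual A => ((ev χ a : Circle) : ℂ)) ψ
  simp only [mul_ev, Circle.coe_mul] at h1
  rw [integral_const_mul] at h1
  have h2 : (((ev ψ a : Circle) : ℂ) - 1) * ∫ χ : Dual A, ((ev χ a : Circle) : ℂ) ∂(haar A) = 0 := by
    rw [sub_mul, h1, one_mul, sub_self]
  rcases mul_eq_zero.1 h2 with h3 | h3
  · exact absurd (Circle.ext (by rw [Circle.coe_one]; exact sub_eq_zero.1 h3)) hψ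
  · exact h3

end basic

/-- A family of characters which separates points: a square-integrable function orthogonal to all
nontrivial ones is a.e. constant. -/
theorem ae_const {Y B : Type} [TopologicalSpace Y] [CompactSpace Y] [T2Space Y]
    [SecondCountableTopology Y] [MeasurableSpace Y] [BorelSpace Y] (μ : Measure Y)
    [IsProbabilityMeasure μ] [AddCommGroup B] (e : B → C(Y, ℂ))
    (hadd : ∀ b c, e (b + c) = e b * e c) (h0 : e 0 = 1) (hneg : ∀ b, e (-b) = star (e b))
    (hsep : ∀ x y : Y, x ≠ y → ∃ b, e b x ≠ e b y)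
    (F : Y → ℂ) (hF : MemLp F 2 μ) (hint : ∀ b, b ≠ 0 → ∫ y, e b y ∂μ = 0)
    (h : ∀ b, b ≠ 0 → ∫ y, e b y * F y ∂μ = 0) :
    ∃ c : ℂ, F =ᵐ[μ] fun _ => c := by
  classical
  letI := TopologicalSpace.metrizableSpaceMetric Y
  set c : ℂ := ∫ y, F y ∂μ with hc
  refine ⟨c, ?_⟩
  have hF1 : Integrable F μ := hF.integrable (by norm_num)
  set F0 : Y → ℂ := fun y => F y - c with hF0
  have hF0m : MemLp F0 2 μ := hF.sub (memLp_const c)
  have hF0i : Integrable F0 μ := hF0m.integrable (by norm_num)
  have horth : ∀ b, ∫ y, e b y * F0 y ∂μ = 0 := by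
    intro b
    have hi1 : Integrable (fun y => e b y * F y) μ := by
      obtain ⟨C, hC⟩ := (isCompact_range (e b).continuous).isBounded.exists_norm_le
      exact hF1.bdd_mul (e b).continuous.aestronglyMeasurable
        (Eventually.of_forall fun y => hC _ ⟨y, rfl⟩)
    have hi2 : Integrable (fun y => e b y * c) μ :=
      ((e b).continuous.integrable_of_hasCompactSupport
        (HasCompactSupport.of_compactSpace _)).mul_const c
    have h1 : ∫ y, e b y * F0 y ∂μ = ∫ y, e b y * F y ∂μ - ∫ y, e b y * c ∂μ := by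
      rw [← integral_sub hi1 hi2]
      congr 1; ext y; rw [hF0]; ring
    rw [h1, integral_mul_const]
    by_cases hb : b = 0
    · subst hb
      rw [h0]
      simp [hc]
    · rw [h b hb, hint b hb, zero_mul, sub_zero]
  -- all continuous functions
  let L : C(Y, ℂ) →L[ℂ] ℂ := LinearMap.mkContinuous
    { toFun := fun p : C(Y, ℂ) => ∫ y, p y * F0 y ∂μ
      map_add' := by
        intro p q
        have hi : ∀ p : C(Y, ℂ), Integrable (fun y => p y * F0 y) μ := fun p =>
          hF0i.bdd_mul p.continuous.aestronglyMeasurable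
            (Eventually.of_forall fun y => p.norm_coe_le_norm y)
        rw [← integral_add (hi p) (hi q)]
        congr 1; ext y; simp [add_mul]
      map_smul' := by
        intro k p
        simp only [RingHom.id_apply, smul_eq_mul, ← integral_const_mul]
        congr 1; ext y; simp [mul_assoc] } (∫ y, ‖F0 y‖ ∂μ) (by
      intro p
      refine (norm_integral_le_integral_norm _).trans ?_
      rw [mul_comm, ← integral_const_mul]
      refine integral_mono_of_nonneg (Eventually.of_forall fun y => norm_nonneg _)
        (hF0i.norm.const_mul _) (Eventually.of_forall fun y => ?_)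
      simp only [norm_mul]
      exact mul_le_mul_of_nonneg_right (p.norm_coe_le_norm y) (norm_nonneg _))
  have hLap : ∀ p : C(Y, ℂ), L p = ∫ y, p y * F0 y ∂μ := fun p => rfl
  let S : StarSubalgebra ℂ C(Y, ℂ) :=
    { carrier := (Submodule.span ℂ (range e) : Submodule ℂ C(Y, ℂ))
      mul_mem' := by
        intro p q hp hq
        refine Submodule.span_induction (p := fun p _ => p * q ∈ Submodule.span ℂ (range e))
          ?_ ?_ ?_ ?_ hp
        · rintro _ ⟨b, rfl⟩
          refine Submodule.span_induction
            (p := fun q _ => e b * q ∈ Submodule.span ℂ (range e)) ?_ ?_ ?_ ?_ hq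
          · rintro _ ⟨b', rfl⟩
            exact Submodule.subset_span ⟨b + b', hadd b b'⟩
          · simp
          · intro x y _ _ hx hy; rw [mul_add]; exact add_mem hx hy
          · intro k x _ hx; rw [mul_smul_comm]; exact Submodule.smul_mem _ _ hx
        · simp
        · intro x y _ _ hx hy; rw [add_mul]; exact add_mem hx hy
        · intro k x _ hx; rw [smul_mul_assoc]; exact Submodule.smul_mem _ _ hx
      add_mem' := fun hp hq => add_mem (S := Submodule ℂ C(Y, ℂ)) hp hq
      algebraMap_mem' := fun r => by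
        rw [Algebra.algebraMap_eq_smul_one, ← h0]
        exact Submodule.smul_mem _ _ (Submodule.subset_span ⟨0, rfl⟩)
      star_mem' := by
        intro p hp
        refine Submodule.span_induction (p := fun p _ => star p ∈ Submodule.span ℂ (range e))
          ?_ ?_ ?_ ?_ hp
        · rintro _ ⟨b, rfl⟩
          exact Submodule.subset_span ⟨-b, hneg b⟩
        · simp
        · intro x y _ _ hx hy; rw [star_add]; exact add_mem hx hy
        · intro k x _ hx; rw [star_smul]; exact Submodule.smul_mem _ _ hx }
  have hS : S.topologicalClosure = ⊤ := by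
    apply ContinuousMap.starSubalgebra_topologicalClosure_eq_top_of_separatesPoints
    intro x y hxy
    obtain ⟨b, hb⟩ := hsep x y hxy
    exact ⟨e b, ⟨e b, Submodule.subset_span ⟨b, rfl⟩, rfl⟩, hb⟩
  have hLS : ∀ p ∈ S, L p = 0 := by
    intro p hp
    refine Submodule.span_induction (p := fun p _ => L p = 0) ?_ ?_ ?_ ?_ hp
    · rintro _ ⟨b, rfl⟩
      exact horth b
    · simp
    · intro x y _ _ hx hy; rw [map_add, hx, hy, add_zero]
    · intro k x _ hx; rw [map_smul, hx, smul_zero]
  have hL0 : ∀ p : C(Y, ℂ), L p = 0 := by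
    intro p
    have hp : p ∈ S.topologicalClosure := by rw [hS]; trivial
    have hcl : IsClosed {p : C(Y, ℂ) | L p = 0} := isClosed_eq L.continuous continuous_const
    have : closure (S : Set C(Y, ℂ)) ⊆ {p : C(Y, ℂ) | L p = 0} := closure_minimal hLS hcl
    exact this hp
  -- density in L2
  have hdense : DenseRange (ContinuousMap.toLp 2 μ ℂ : C(Y, ℂ) →L[ℂ] Lp ℂ 2 μ) :=
    ContinuousMap.toLp_denseRange ℂ μ ℂ (by norm_num)
  have hz : hF0m.toLp F0 = 0 := by
    refine hdense.eq_zero_of_inner_left (𝕜 := ℂ) ?_
    intro p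
    rw [← inner_conj_symm]
    have h1 : ⟪ContinuousMap.toLp 2 μ ℂ p, hF0m.toLp F0⟫_ℂ = ∫ y, (star p) y * F0 y ∂μ := by
      rw [L2.inner_def]
      refine integral_congr_ae ?_
      filter_upwards [ContinuousMap.coeFn_toLp (p := 2) (𝕜 := ℂ) μ p, hF0m.coeFn_toLp] with y h2 h3
      rw [h2, h3, RCLike.inner_apply]
      rw [mul_comm]; rfl
    rw [h1, ← hLap, hL0, map_zero]
  have h1 : F0 =ᵐ[μ] 0 := by
    have h2 := hF0m.coeFn_toLp
    rw [hz] at h2
    exact h2.symm.trans (Lp.coeFn_zero _ _ _)
  filter_upwards [h1] with y hy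
  have : F y - c = 0 := hy
  exact sub_eq_zero.1 this

end Q71.AA
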