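import Pool.Agent.Q71.AA.Dual

set_option autoImplicit false

open MeasureTheory Filter Topology Set
open scoped ComplexConjugate InnerProductSpace ENNReal

namespace Q71.AA

/-- Bessel: if infinitely many distinct characters have the same coefficient, it is zero. -/
theorem coef_zero {Y B : Type} [TopologicalSpace Y] [CompactSpace Y] [T2Space Y]
    [SecondCountableTopology Y] [MeasurableSpace Y] [BorelSpace Y] (μ : Measure Y)
    [IsProbabilityMeasure μ] [AddCommGroup B] (e : B → C(Y, ℂ))
    (hadd : ∀ b c, e (b + c) = e b * e c) (h0 : e 0 = 1) (hneg : ∀ b, e (-b) = star (e b))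
    (F : Y → ℂ) (hF : MemLp F 2 μ) (hint : ∀ b, b ≠ 0 → ∫ y, e b y ∂μ = 0)
    (b : ℕ → B) (hb : Function.Injective b) (I : ℂ) (hI : ∀ i, ∫ y, e (b i) y * F y ∂μ = I) :
    I = 0 := by
  classical
  set v : ℕ → Lp ℂ 2 μ := fun i => ContinuousMap.toLp 2 μ ℂ (e (-(b i))) with hv
  have hstar : ∀ c, star (e (-c)) = e c := fun c => by rw [← hneg, neg_neg]
  have horth : Orthonormal ℂ v := by
    rw [orthonormal_iff_ite]
    intro i j
    have h1 : ⟪v i, v j⟫_ℂ = ∫ y, e (b i - b j) y ∂μ := by
      rw [L2.inner_def]
      refine integral_congr_ae ?_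
      filter_upwards [ContinuousMap.coeFn_toLp (p := 2) (𝕜 := ℂ) μ (e (-(b i))),
        ContinuousMap.coeFn_toLp (p := 2) (𝕜 := ℂ) μ (e (-(b j)))] with y h2 h3
      rw [hv]
      simp only
      rw [h2, h3, RCLike.inner_apply, sub_eq_add_neg, hadd, ContinuousMap.mul_apply, mul_comm]
      congr 1
      exact DFunLike.congr_fun (hstar (b i)) y
    rw [h1]
    by_cases hij : i = j
    · subst hij
      rw [if_pos rfl, sub_self, h0]
      simp
    · rw [if_neg hij]
      exact hint _ (sub_ne_zero.2 fun h => hij (hb h))
  have hs := horth.inner_products_summable (hF.toLp F)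
  have hc : ∀ i, ⟪v i, hF.toLp F⟫_ℂ = I := by
    intro i
    rw [← hI i, L2.inner_def]
    refine integral_congr_ae ?_
    filter_upwards [ContinuousMap.coeFn_toLp (p := 2) (𝕜 := ℂ) μ (e (-(b i))),
      hF.coeFn_toLp] with y h2 h3
    rw [hv]
    simp only
    rw [h2, h3, RCLike.inner_apply, mul_comm]
    congr 1
    exact DFunLike.congr_fun (hstar (b i)) y
  simp only [hc] at hs
  have := hs.tendsto_atTop_zero
  have h2 := tendsto_nhds_unique this tendsto_const_nhds
  have h3 : ‖I‖ ^ 2 = 0 := h2.symm
  exact norm_eq_zero.1 (pow_eq_zero_iff (two_ne_zero)|>.1 h3)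

/-- A measure preserving action is weakly mixing if the diagonal action on the square is ergodic. -/
def WeaklyMixing {G X : Type} [MeasurableSpace X] (μ : Measure X) (T : G → X → X) : Prop :=
  ∀ s : Set (X × X), MeasurableSet s →
    (∀ g, (fun p : X × X => (T g p.1, T g p.2)) ⁻¹' s =ᵐ[μ.prod μ] s) →
    (μ.prod μ) s = 0 ∨ (μ.prod μ) sᶜ = 0

section crit
variable {A : Type} [AddCommGroup A]

/-- the character `(m, n)` of the square of the dual -/
noncomputable def ch (m : A × A) : C(Dual A × Dual A, ℂ) :=
  ⟨fun p => ((ev p.1 m.1 : Circle) : ℂ) * ((ev p.2 m.2 : Circle) : ℂ),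
    (continuous_subtype_val.comp ((cont_ev _).comp continuous_fst)).mul
      (continuous_subtype_val.comp ((cont_ev _).comp continuous_snd))⟩

lemma ch_apply (m : A × A) (p : Dual A × Dual A) :
    ch m p = ((ev p.1 m.1 : Circle) : ℂ) * ((ev p.2 m.2 : Circle) : ℂ) := rfl

lemma ch_add (b c : A × A) : ch (b + c) = ch b * ch c := by
  ext p
  rw [ContinuousMap.mul_apply, ch_apply, ch_apply, ch_apply, Prod.fst_add, Prod.snd_add, ev_add,
    ev_add, Circle.coe_mul, Circle.coe_mul]
  ring

lemma ch_zero : ch (0 : A × A) = 1 := by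
  ext p
  rw [ch_apply, Prod.fst_zero, Prod.snd_zero, ev_zero, ev_zero]
  simp

lemma ch_neg (b : A × A) : ch (-b) = star (ch b) := by
  ext p
  rw [ContinuousMap.star_apply, ch_apply, ch_apply, Prod.fst_neg, Prod.snd_neg, ev_neg, ev_neg,
    Circle.coe_inv_eq_conj, Circle.coe_inv_eq_conj, star_mul', ← starRingEnd_apply,
    ← starRingEnd_apply]

lemma integral_ch {b : A × A} (hb : b ≠ 0) : ∫ p, ch b p ∂((haar A).prod (haar A)) = 0 := by
  simp only [ch_apply]
  rw [integral_prod_mul (fun x : Dual A => ((ev x b.1 : Circle) : ℂ))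
    (fun x : Dual A => ((ev x b.2 : Circle) : ℂ))]
  by_cases h1 : b.1 = 0
  · have h2 : b.2 ≠ 0 := fun h => hb (Prod.ext h1 h)
    rw [integral_ev h2, mul_zero]
  · rw [integral_ev h1, zero_mul]

lemma ch_sep (x y : Dual A × Dual A) (hxy : x ≠ y) : ∃ b, ch b x ≠ ch b y := by
  by_contra h
  push Not at h
  apply hxy
  refine Prod.ext (dual_ext fun a => Circle.ext ?_) (dual_ext fun a => Circle.ext ?_)
  · have := h (a, 0)
    simpa [ch_apply, ev_zero] using this
  · have := h (0, a)
    simpa [ch_apply, ev_zero] using this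

/-- Algebraic criterion for weak mixing: the orbits of all nonzero elements of the dual module are
infinite. -/
theorem weaklyMixing_of_orbits [Countable A] {G : Type} (σ : G → A → A)
    (T : G → Dual A → Dual A) (hT : ∀ g χ a, ev (T g χ) a = ev χ (σ g a))
    (hmp : ∀ g, MeasurePreserving (T g) (haar A) (haar A))
    (hinf : ∀ a : A, a ≠ 0 → (range fun g => σ g a).Infinite) : WeaklyMixing (haar A) T := by
  classical
  intro s hs hinv
  set μ := (haar A).prod (haar A) with hμ
  set F : Dual A × Dual A → ℂ := s.indicator fun _ => 1 with hF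
  have hFm : MemLp F 2 μ := memLp_indicator_const 2 hs 1 (Or.inr (measure_ne_top _ _))
  have hzero : ∀ b : A × A, b ≠ 0 → ∫ p, ch b p * F p ∂μ = 0 := by
    intro b hb
    have horb : ∀ g, ∫ p, ch (σ g b.1, σ g b.2) p * F p ∂μ = ∫ p, ch b p * F p ∂μ := by
      intro g
      have hm : MeasurePreserving (fun p : Dual A × Dual A => (T g p.1, T g p.2)) μ μ :=
        (hmp g).prod (hmp g)
      have h1 : ∫ p, ch b p * F p ∂μ =
          ∫ p : Dual A × Dual A, ch b (T g p.1, T g p.2) * F (T g p.1, T g p.2) ∂μ := by
        have hae : AEStronglyMeasurable (fun p => ch b p * F p)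
            (Measure.map (fun p : Dual A × Dual A => (T g p.1, T g p.2)) μ) := by
          rw [hm.map_eq]
          exact ((ch b).continuous.aestronglyMeasurable).mul hFm.aestronglyMeasurable
        have h2 := integral_map (μ := μ) hm.measurable.aemeasurable hae
        rw [hm.map_eq] at h2
        exact h2
      rw [h1]
      refine integral_congr_ae ?_
      filter_upwards [hinv g] with p hp
      have h3 : F (T g p.1, T g p.2) = F p := by
        have h4 : ((T g p.1, T g p.2) ∈ s) = (p ∈ s) := hp
        simp only [hF, indicator_apply, h4]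
      rw [h3, ch_apply, ch_apply, hT, hT]
    have hi : (range fun g => (σ g b.1, σ g b.2)).Infinite := by
      by_cases h1 : b.1 = 0
      · have h2 : b.2 ≠ 0 := fun h => hb (Prod.ext h1 h)
        refine Set.Infinite.of_image Prod.snd ?_
        rw [← range_comp]
        exact hinf _ h2
      · refine Set.Infinite.of_image Prod.fst ?_
        rw [← range_comp]
        exact hinf _ h1
    let emb := hi.natEmbedding
    refine coef_zero μ ch ch_add ch_zero ch_neg F hFm (fun b hb => integral_ch hb)
      (fun i => (emb i : A × A)) (fun i j h => emb.injective (Subtype.ext h)) _ fun i => ?_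
    obtain ⟨g, hg⟩ := (emb i).2
    show ∫ p, ch (emb i : A × A) p * F p ∂μ = _
    rw [← hg]
    exact horb g
  obtain ⟨c, hc⟩ := ae_const μ ch ch_add ch_zero ch_neg ch_sep F hFm
    (fun b hb => integral_ch hb) hzero
  by_cases h1 : c = 1
  · right
    have : ∀ᵐ p ∂μ, p ∈ s := by
      filter_upwards [hc] with p hp
      by_contra hps
      rw [hF, indicator_of_notMem hps, h1] at hp
      exact zero_ne_one hp
    exact this
  · left
    have : ∀ᵐ p ∂μ, p ∉ s := by
      filter_upwards [hc] with p hp hps
      rw [hF, indicator_of_mem hps] at hp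
      exact h1 hp.symm
    have h2 := this
    rw [ae_iff] at h2
    simpa using h2

/-- The set of characters trivial at an element of infinite order is null. -/
theorem null_of_inf_order {a : A} (ha : ∀ n : ℕ, n ≠ 0 → n • a ≠ 0) :
    haar A {χ | ev χ a = 1} = 0 := by
  classical
  have hmeas : MeasurableSet {χ : Dual A | ev χ a = 1} :=
    (isClosed_eq (cont_ev a) continuous_const).measurableSet
  have hpow : ∀ (χ : Dual A) (n : ℕ), ev χ (n • a) = (ev χ a) ^ n := by
    intro χ n
    induction n with
    | zero => rw [zero_smul, ev_zero, pow_zero]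
    | succ n ih => rw [add_smul, one_smul, ev_add, ih, pow_succ]
  -- Fejer sums
  have key : ∀ N : ℕ, 0 < N → (haar A).real {χ | ev χ a = 1} ≤ 1 / N := by
    intro N hN
    have hNR : (0 : ℝ) < N := by exact_mod_cast hN
    let D : Dual A → ℂ := fun χ => ∑ i ∈ Finset.range N, ((ev χ (i • a) : Circle) : ℂ)
    have hDc : Continuous D := continuous_finsetSum _ fun i _ =>
      continuous_subtype_val.comp (cont_ev _)
    have hci : ∀ m : A, Continuous fun χ : Dual A => ((ev χ m : Circle) : ℂ) := fun m =>
      continuous_subtype_val.comp (cont_ev _)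
    have hintg : ∀ m : A, Integrable (fun χ : Dual A => ((ev χ m : Circle) : ℂ)) (haar A) := fun m =>
      (hci m).integrable_of_hasCompactSupport (HasCompactSupport.of_compactSpace _)
    have h1 : ∫ χ, D χ * conj (D χ) ∂(haar A) = N := by
      have h2 : ∀ χ, D χ * conj (D χ) = ∑ i ∈ Finset.range N, ∑ j ∈ Finset.range N,
          ((ev χ (i • a - j • a) : Circle) : ℂ) := by
        intro χ
        simp only [D, map_sum, Finset.sum_mul_sum]
        refine Finset.sum_congr rfl fun i _ => Finset.sum_congr rfl fun j _ => ?_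
        rw [sub_eq_add_neg, ev_add, ev_neg, Circle.coe_mul, Circle.coe_inv_eq_conj]
      simp only [h2]
      rw [integral_finsetSum _ fun i _ => integrable_finsetSum _ fun j _ => hintg _]
      have h3 : ∀ i ∈ Finset.range N, ∫ χ : Dual A, ∑ j ∈ Finset.range N,
          ((ev χ (i • a - j • a) : Circle) : ℂ) ∂(haar A) = 1 := by
        intro i hi
        rw [integral_finsetSum _ fun j _ => hintg _]
        rw [Finset.sum_eq_single i]
        · rw [sub_self]; simp [ev_zero]
        · intro j _ hji
          apply integral_ev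
          intro h
          have h' : i • a = j • a := sub_eq_zero.1 h
          rcases lt_or_gt_of_ne hji with hlt | hlt
          · apply ha (i - j) (by omega)
            have : i • a = (i - j) • a + j • a := by rw [← add_smul]; congr 1; omega
            rw [h'] at this
            exact (left_eq_add.1 (this.trans (add_comm _ _)))
          · apply ha (j - i) (by omega)
            have : j • a = (j - i) • a + i • a := by rw [← add_smul]; congr 1; omega
            rw [← h'] at this
            exact (left_eq_add.1 (this.trans (add_comm _ _)))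
        · intro h; exact absurd hi h
      rw [Finset.sum_congr rfl h3]
      simp
    have h2 : ∫ χ, ‖D χ‖ ^ 2 ∂(haar A) = N := by
      have h3 : ∀ χ, D χ * conj (D χ) = ((‖D χ‖ ^ 2 : ℝ) : ℂ) := by
        intro χ; rw [Complex.mul_conj, Complex.normSq_eq_norm_sq]
      simp only [h3] at h1
      rw [integral_complex_ofReal] at h1
      exact_mod_cast h1
    have hint2 : Integrable (fun χ => ‖D χ‖ ^ 2) (haar A) :=
      ((hDc.norm).pow 2).integrable_of_hasCompactSupport (HasCompactSupport.of_compactSpace _)
    have h3 : (haar A).real {χ | ev χ a = 1} * (N : ℝ) ^ 2 ≤ N := by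
      refine le_trans ?_ h2.le
      calc (haar A).real {χ | ev χ a = 1} * (N : ℝ) ^ 2
          = ∫ χ in {χ | ev χ a = 1}, ((N : ℝ) ^ 2) ∂(haar A) := by
            rw [setIntegral_const, smul_eq_mul]
        _ = ∫ χ in {χ | ev χ a = 1}, ‖D χ‖ ^ 2 ∂(haar A) := by
            refine setIntegral_congr_fun hmeas fun χ hχ => ?_
            have hχ' : ev χ a = 1 := hχ
            have : D χ = N := by
              simp only [D, hpow, hχ', one_pow, Circle.coe_one, Finset.sum_const,
                Finset.card_range, nsmul_eq_mul, mul_one]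
            simp only [this]
            simp
        _ ≤ ∫ χ, ‖D χ‖ ^ 2 ∂(haar A) :=
            setIntegral_le_integral hint2 (Eventually.of_forall fun χ => by positivity)
    rw [le_div_iff₀ hNR]
    have h4 : (haar A).real {χ | ev χ a = 1} * (N : ℝ) * N ≤ 1 * N := by
      rw [one_mul]; nlinarith [h3]
    exact le_of_mul_le_mul_right h4 hNR
  have h5 : (haar A).real {χ | ev χ a = 1} = 0 := by
    refine le_antisymm ?_ measureReal_nonneg
    refine ge_of_tendsto' (tendsto_const_div_atTop_nhds_zero_nat 1 |>.comp (tendsto_add_atTop_nat 1))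
      fun n => ?_
    exact key (n + 1) n.succ_pos
  exact (measureReal_eq_zero_iff (measure_ne_top _ _)).1 h5

end crit

end Q71.AA
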